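import Pool.Agent.H86.FDA.Tools
import Pool.Agent.H86.FDA.INI

/-! Row CJ: the case `n = 2`: the cut generated by one element of the ultrapower. -/

namespace Pool.FDA

namespace CJ

open Function Filter

deriving instance Countable for Tm
deriving instance Countable for Fm

/-! ### `Π₁` goes down -/

theorem sp0_D0 {b : Bool} {φ : Fm} (h : SP b 0 φ) : D0 φ := by
  cases h with
  | base _ h => exact h

theorem sat_all {K : Type} [PAM K] (e : ℕ → K) (x : ℕ) (φ : Fm) :
    Sat e (.all x φ) ↔ ∀ a, Sat (update e x a) φ := by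
  simp only [Fm.all, Sat, not_exists, not_not]

theorem pi1_down {K K' : Type} [PAM K] [PAM K'] {ι : K → K'} (hA : Abs0 ι) :
    ∀ (b : Bool) (n : ℕ) (φ : Fm), SP b n φ → b = false → n = 1 → ∀ e : ℕ → K,
      Sat (fun n => ι (e n)) φ → Sat e φ := by
  intro b n φ h
  induction h with
  | base b h0 => intro _ h1; exact absurd h1 (by norm_num)
  | @up b n φ h ih =>
    intro _ h1 e he
    have hn : n = 0 := by omega
    subst hn
    exact (hA φ (sp0_D0 h) e).2 he
  | ex x h ih => intro h1; exact absurd h1 (by simp)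
  | @all n x φ h ih =>
    intro h1 h2 e he
    rw [sat_all] at he ⊢
    intro a
    have := he (ι a)
    rw [← comp_update] at this
    exact ih h1 h2 _ this

/-! ### witnesses -/

theorem sg2_wit {M : Type} [PAM M] (hE : AbsAll (cst : M → UP M)) :
    ∀ (b : Bool) (n : ℕ) (φ : Fm), SP b n φ → b = true → n = 2 → ∀ e : ℕ → M, Sat e φ →
      ∃ w : M, ∀ (K : Type) [PAM K] (ι : K →+* UP M), Ini ι → Abs0 ι →
        (∃ c : K, cst w ≤ ι c) → ∀ e' : ℕ → K, (∀ n, ι (e' n) = cst (e n)) → Sat e' φ := by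
  intro b n φ h
  induction h with
  | base b h0 => intro _ h1; exact absurd h1 (by norm_num)
  | @up b n φ h ih =>
    intro h1 h2 e he
    have hn : n = 1 := by omega
    subst hn
    subst h1
    refine ⟨0, fun K _ ι _ hA _ e' he' => ?_⟩
    refine pi1_down hA _ _ φ h rfl rfl e' ?_
    have := (hE φ e).1 he
    simpa only [he'] using this
  | @ex n x φ h ih =>
    intro h1 h2 e he
    obtain ⟨a, ha⟩ := he
    obtain ⟨w, hw⟩ := ih h1 h2 _ ha
    refine ⟨max w a, fun K _ ι hI hA hc e' he' => ?_⟩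
    obtain ⟨c, hc⟩ := hc
    have hcst : Monotone (cst : M → UP M) := by
      intro u v huv
      change ((fun _ => u : ℕ → M) : UP M) ≤ ((fun _ => v : ℕ → M) : UP M)
      rw [Germ.coe_le]
      exact Eventually.of_forall fun _ => huv
    have h1 : cst w ≤ ι c := (hcst (le_max_left _ _)).trans hc
    have h2 : cst a ≤ ι c := (hcst (le_max_right _ _)).trans hc
    obtain ⟨a', ha'⟩ : ∃ a', ι a' = cst a := by
      rcases h2.eq_or_lt with h | h
      · exact ⟨c, h.symm⟩
      · exact hI _ _ h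
    refine ⟨a', hw K ι hI hA ⟨c, h1⟩ _ fun m => ?_⟩
    by_cases hm : m = x
    · subst hm; simp [ha']
    · simp [update_of_ne hm, he']
  | all x h ih => intro h1; exact absurd h1 (by simp)

/-! ### the cut -/

/-- All elements below a power of `c`. -/
def pw {U : Type} [PAM U] (c : U) (hc : 2 ≤ c) : Subsemiring U where
  carrier := {z | ∃ k : ℕ, z ≤ c ^ k}
  zero_mem' := ⟨0, by simp⟩
  one_mem' := ⟨0, by simp⟩
  add_mem' := by
    rintro a b ⟨k, hk⟩ ⟨l, hl⟩
    have h1 : (1 : U) ≤ c := le_trans (by norm_num) hc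
    refine ⟨k + l + 1, ?_⟩
    have e1 : c ^ k ≤ c ^ (k + l) := pow_le_pow_right₀ h1 (by omega)
    have e2 : c ^ l ≤ c ^ (k + l) := pow_le_pow_right₀ h1 (by omega)
    calc a + b ≤ c ^ (k + l) + c ^ (k + l) := add_le_add (hk.trans e1) (hl.trans e2)
      _ = c ^ (k + l) * 2 := by ring
      _ ≤ c ^ (k + l) * c := mul_le_mul_of_nonneg_left hc (pam_zero_le _)
      _ = c ^ (k + l + 1) := by ring
  mul_mem' := by
    rintro a b ⟨k, hk⟩ ⟨l, hl⟩
    refine ⟨k + l, ?_⟩
    rw [pow_add]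
    exact mul_le_mul hk hl (pam_zero_le _) (pam_zero_le _)

noncomputable instance instPAMpw {U : Type} [PAM U] (c : U) (hc : 2 ≤ c) : PAM (pw c hc) where
  zero_le' x := pam_zero_le (x : U)
  sub' x y h := by
    obtain ⟨z, hz⟩ := PAM.sub' (x : U) (y : U) h
    obtain ⟨k, hk⟩ := y.2
    have hzy : z ≤ (y : U) := by rw [← hz]; exact le_add_of_nonneg_left (pam_zero_le _)
    exact ⟨⟨z, k, hzy.trans hk⟩, Subtype.ext hz⟩
  disc' x h := PAM.disc' (x : U) h

/-! ### failure of `IΣ₁` -/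

/-- `Beta b₁ b₂ i v` with `b₁ = var 1`, `b₂ = var 2`, auxiliary variable `6`. -/
def bt (i v : Tm) : Fm :=
  .and (.lt v (.add .one (.mul (.add i .one) (.var 2))))
    (.ex 6 (.and (.lt (.var 6) (.add (.var 1) .one))
      (.eq (.var 1) (.add (.mul (.var 6) (.add .one (.mul (.add i .one) (.var 2)))) v))))

theorem bt_D0 (i v : Tm) : D0 (bt i v) :=
  .and (.lt _ _) (.bex 6 _ (by simp [Tm.vars]) (.eq _ _))

theorem bt_sat {K : Type} [PAM K] (e : ℕ → K) (i v : Tm) (hi : 6 ∉ i.vars) (hv : 6 ∉ v.vars) :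
    Sat e (bt i v) ↔ Beta (e 1) (e 2) (i.val e) (v.val e) := by
  simp only [bt, Sat, Tm.val, Beta]
  refine and_congr_right fun _ => ?_
  have h6 : (6 : ℕ) ≠ 1 := by norm_num
  constructor
  · rintro ⟨q, hq, h⟩
    refine ⟨q, ?_⟩
    rw [val_update_of_notMem _ _ _ _ hi, val_update_of_notMem _ _ _ _ hv] at h
    simpa using h
  · rintro ⟨q, h⟩
    refine ⟨q, ?_, ?_⟩
    · have := beta_q_le h
      simpa using lt_of_le_of_lt this (pam_lt_add_one _)
    · rw [val_update_of_notMem _ _ _ _ hi, val_update_of_notMem _ _ _ _ hv]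
      simpa using h

/-- the matrix: `b₁, b₂` code the powers of `c = var 3` up to the exponent `var 0`. -/
def mat : Fm :=
  .and (bt .zero .one)
    (.neg (.ex 4 (.and (.lt (.var 4) (.var 0))
      (.neg (.ex 5 (.and (.lt (.var 5) (.add (.var 1) .one))
        (.and (bt (.var 4) (.var 5)) (bt (.add (.var 4) .one) (.mul (.var 3) (.var 5))))))))))

theorem mat_D0 : D0 mat :=
  .and (bt_D0 _ _) (.neg (.bex 4 _ (by simp [Tm.vars]) (.neg (.bex 5 _ (by simp [Tm.vars])
    (.and (bt_D0 _ _) (bt_D0 _ _))))))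

/-- the powers of `c` up to exponent `k` are coded by `b₁, b₂` -/
def Cod {K : Type} [PAM K] (c b₁ b₂ k : K) : Prop :=
  Beta b₁ b₂ 0 1 ∧ ∀ i < k, ∃ v, Beta b₁ b₂ i v ∧ Beta b₁ b₂ (i + 1) (c * v)

theorem mat_sat {K : Type} [PAM K] (e : ℕ → K) :
    Sat e mat ↔ Cod (e 3) (e 1) (e 2) (e 0) := by
  have h1 := bt_sat e .zero .one (by simp [Tm.vars]) (by simp [Tm.vars])
  simp only [mat, Cod, Sat]
  refine and_congr (h1.trans (by simp [Tm.val])) ?_
  simp only [not_exists, not_and, not_forall, not_not, exists_prop, Tm.val]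
  refine forall_congr' fun i => ?_
  have e1 : update e 4 i 4 = i := by simp
  have e2 : update e 4 i 0 = e 0 := by simp [update_of_ne]
  rw [e1, e2]
  refine imp_congr_right fun _ => exists_congr fun v => ?_
  have h2 := bt_sat (update (update e 4 i) 5 v) (.var 4) (.var 5) (by simp [Tm.vars])
    (by simp [Tm.vars])
  have h3 := bt_sat (update (update e 4 i) 5 v) (.add (.var 4) .one) (.mul (.var 3) (.var 5))
    (by simp [Tm.vars]) (by simp [Tm.vars])
  rw [h2, h3]
  simp only [Tm.val]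
  have a1 : update (update e 4 i) 5 v 1 = e 1 := by simp [update_of_ne]
  have a2 : update (update e 4 i) 5 v 2 = e 2 := by simp [update_of_ne]
  have a3 : update (update e 4 i) 5 v 3 = e 3 := by simp [update_of_ne]
  have a4 : update (update e 4 i) 5 v 4 = i := by simp [update_of_ne]
  have a5 : update (update e 4 i) 5 v 5 = v := by simp
  rw [a1, a2, a3, a4, a5]
  constructor
  · rintro ⟨_, h⟩; exact h
  · intro h
    exact ⟨lt_of_le_of_lt (beta_le h.1) (pam_lt_add_one _), h⟩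

theorem fail {K : Type} [PAM K] (hCRT : CRTStmt) (hPAA : PAAStmt) (hID : IDelta0 K) (c : K)
    (hc : ∀ n : ℕ, (n : K) < c) (hK : ∀ z : K, ∃ k : ℕ, z ≤ c ^ k) : ¬ ISigma1 K := by
  intro hS
  obtain ⟨P1, P2, -, -⟩ := hPAA K
  have hc1 : (1 : K) < c := by simpa using hc 1
  -- codes are short
  have short : ∀ k b₁ b₂ : K, Cod c b₁ b₂ k → ∃ n : ℕ, k = n := by
    intro k b₁ b₂ h
    obtain ⟨m, hm⟩ := hK b₁
    by_contra hne
    have big : ∀ n : ℕ, (n : K) < k := by
      intro n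
      by_contra h1
      obtain ⟨m', -, hm'⟩ := P1 n k (not_lt.1 h1)
      exact hne ⟨m', hm'⟩
    have pow : ∀ n : ℕ, Beta b₁ b₂ (n : K) (c ^ n) := by
      intro n
      induction n with
      | zero => simpa using h.1
      | succ n ih =>
        obtain ⟨v, h1, h2⟩ := h.2 n (big n)
        have := P2 _ _ _ _ _ h1 ih
        rw [this] at h2
        rw [pow_succ, mul_comm]
        simpa using h2
    have h1 := beta_le (pow (m + 1))
    have h2 : c ^ m < c ^ (m + 1) := pow_lt_pow_right₀ hc1 (by omega)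
    exact absurd (h1.trans hm) (not_le.2 h2)
  -- codes of every standard length
  have long : ∀ n : ℕ, ∃ b₁ b₂ : K, Cod c b₁ b₂ n := by
    intro n
    obtain ⟨N, hN⟩ := hCRT (n + 1)
    obtain ⟨b₁, b₂, -, -, hb⟩ := hN K hID (c ^ n) (fun i => c ^ i)
      (fun i hi => pow_le_pow_right₀ hc1.le (by omega))
    refine ⟨b₁, b₂, by simpa using hb 0 (by omega), fun i hi => ?_⟩
    obtain ⟨m, hm, rfl⟩ := P1 n i hi.le
    have hmn : m < n := by exact_mod_cast hi
    refine ⟨c ^ m, hb m (by omega), ?_⟩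
    have := hb (m + 1) (by omega)
    rw [pow_succ, mul_comm] at this
    simpa using this
  have key := hS (.ex 1 (.ex 2 mat)) (.ex 1 (.ex 2 (.up true (.base _ mat_D0)))) 0 (fun _ => c)
  have sat : ∀ u : K, Sat (update (fun _ => c) 0 u) (.ex 1 (.ex 2 mat)) ↔
      ∃ b₁ b₂ : K, Cod c b₁ b₂ u := by
    intro u
    simp only [Sat]
    refine exists_congr fun b₁ => exists_congr fun b₂ => ?_
    rw [mat_sat]
    simp [update_of_ne]
  simp only [sat] at key
  have all := key (by simpa using long 0) (by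
    rintro u ⟨b₁, b₂, h⟩
    obtain ⟨n, rfl⟩ := short _ _ _ h
    obtain ⟨b₁', b₂', h'⟩ := long (n + 1)
    exact ⟨b₁', b₂', by simpa using h'⟩)
  obtain ⟨b₁, b₂, h⟩ := all c
  obtain ⟨n, hn⟩ := short _ _ _ h
  exact absurd (hc n) (by rw [hn]; exact lt_irrefl _)

end CJ

open Function Filter CJ

theorem t_cj (hLOS : LOSStmt) (hTRS : TRSStmt) (hTRI : TRIStmt) (hCRT : CRTStmt)
    (hPAA : PAAStmt) : CJStmt := by
  intro M _ hM hR
  obtain ⟨A, hA1, hA2⟩ := hR
  have hE := up_elem hLOS M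
  -- witnesses
  have hw : ∀ σ : Fm, ∃ w : M, σ ∈ A → ∀ (K : Type) [PAM K] (ι : K →+* UP M), Ini ι → Abs0 ι →
      (∃ c : K, cst w ≤ ι c) → Mod K σ := by
    intro σ
    by_cases h : σ ∈ A
    · obtain ⟨w, hw⟩ := sg2_wit hE _ _ σ (hA1 σ h).2.1 rfl rfl (fun _ => 0) (hA1 σ h).2.2
      refine ⟨w, fun _ K _ ι hI hA hc => hw K ι hI hA hc (fun _ => 0) fun n => ?_⟩
      rw [map_zero]; rfl
    · exact ⟨0, fun h' => absurd h' h⟩
  choose w hw using hw
  have : Nonempty Fm := ⟨.eq .zero .zero⟩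
  obtain ⟨en, hen⟩ := exists_surjective_nat Fm
  -- the large element
  let f : ℕ → M := fun n => (n : M) + 2 + ∑ m ∈ Finset.range n, w (en m)
  have hf2 : ∀ n, (2 : M) ≤ f n := by
    intro n
    have h1 : (0 : M) ≤ (n : M) := pam_zero_le _
    have h2 : (0 : M) ≤ ∑ m ∈ Finset.range n, w (en m) := pam_zero_le _
    calc (2 : M) = 0 + 2 + 0 := by simp
      _ ≤ (n : M) + 2 + ∑ m ∈ Finset.range n, w (en m) := by gcongr
  let c : UP M := (f : UP M)
  have hc2 : (2 : UP M) ≤ c := by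
    change ((fun _ => (2 : M) : ℕ → M) : UP M) ≤ (f : UP M)
    rw [Germ.coe_le]
    exact Eventually.of_forall hf2
  have hcn : ∀ k : ℕ, (k : UP M) < c := by
    intro k
    rw [← cst_nat]
    change ((fun _ => (k : M) : ℕ → M) : UP M) < (f : UP M)
    rw [Germ.coe_lt]
    filter_upwards [ev_gt k] with n hn
    have h1 : (k : M) < n := by exact_mod_cast hn
    have h2 : (0 : M) ≤ ∑ m ∈ Finset.range n, w (en m) := pam_zero_le _
    have h3 : (0 : M) ≤ 2 := pam_zero_le _
    calc (k : M) < n := h1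
      _ = (n : M) + 0 + 0 := by simp
      _ ≤ (n : M) + 2 + ∑ m ∈ Finset.range n, w (en m) := by gcongr
  have hcw : ∀ σ : Fm, cst (w σ) ≤ c := by
    intro σ
    obtain ⟨m, rfl⟩ := hen σ
    change ((fun _ => w (en m) : ℕ → M) : UP M) ≤ (f : UP M)
    rw [Germ.coe_le]
    filter_upwards [ev_gt m] with n hn
    have h1 : w (en m) ≤ ∑ m ∈ Finset.range n, w (en m) :=
      Finset.single_le_sum (f := fun m => w (en m)) (fun i _ => pam_zero_le _) (Finset.mem_range.2 hn)
    have h2 : (0 : M) ≤ (n : M) + 2 := pam_zero_le _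
    exact h1.trans (le_add_of_nonneg_left h2)
  let K := pw c hc2
  let ι : K →+* UP M := K.subtype
  have hmono : StrictMono ι := fun a b h => h
  have hini : Ini ι := by
    rintro ⟨x, k, hk⟩ y hy
    exact ⟨⟨y, k, (le_of_lt hy).trans hk⟩, rfl⟩
  -- the ultrapower
  let j : M →+* UP M :=
    { toFun := cst
      map_one' := rfl
      map_mul' := fun _ _ => rfl
      map_zero' := rfl
      map_add' := fun _ _ => rfl }
  have hj : StrictMono j := by
    intro a b h
    change ((fun _ => a : ℕ → M) : UP M) < ((fun _ => b : ℕ → M) : UP M)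
    rw [Germ.coe_lt]
    exact Eventually.of_forall fun _ => h
  have hU : IDelta0 (UP M) := ((hTRS M (UP M) j hj hE).1).1 hM
  obtain ⟨hK0, hKC⟩ := hTRI K (UP M) ι hmono hini hU
  have habs : Abs0 ι := t_ini K (UP M) ι hmono hini
  -- properness
  have hprop : ∃ y : UP M, ∀ x : K, ι x ≤ y := by
    refine ⟨((fun n => f n ^ n : ℕ → M) : UP M), ?_⟩
    rintro ⟨x, k, hk⟩
    refine le_trans hk ?_
    change ((fun n => f n ^ k : ℕ → M) : UP M) ≤ ((fun n => f n ^ n : ℕ → M) : UP M)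
    rw [Germ.coe_le]
    filter_upwards [ev_gt k] with n hn
    exact pow_le_pow_right₀ (le_trans (by norm_num) (hf2 n)) hn.le
  have cK : c ∈ K := ⟨1, by simp⟩
  have hmod : ∀ σ ∈ A, Mod K σ := fun σ hσ => hw σ hσ K ι hini habs ⟨⟨c, cK⟩, hcw σ⟩
  refine ⟨K, inferInstance, hK0, hKC hprop, ?_, A, fun σ hσ => ⟨(hA1 σ hσ).1, (hA1 σ hσ).2.1,
    hmod σ hσ⟩, ?_⟩
  · refine fail hCRT hPAA hK0 ⟨c, cK⟩ ?_ ?_
    · intro n
      refine hmono.lt_iff_lt.1 ?_
      rw [map_natCast]
      exact hcn n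
    · rintro ⟨z, k, hz⟩
      refine ⟨k, hmono.le_iff_le.1 ?_⟩
      rw [map_pow]
      exact hz
  · intro K' _ hK' φ hφ hKφ
    by_cases hM' : Mod M φ
    · exact hA2 K' hK' φ hφ hM'
    · have h1 : Mod K (.neg φ) := hA2 K hmod (.neg φ) (by simpa [Closed, Fm.fv] using hφ) hM'
      exact absurd hKφ h1

end Pool.FDA
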